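import Pool.Agent.H9.CA.Tool

/-! The hierarchy of `C(aa)` is uniformly definable (target `T_DW`). -/

set_option linter.unusedVariables false

open Ordinal Order Set
open scoped ZFSet

namespace CAA

namespace H85DW

open SF

variable {R R' : (V → Prop) → (ℕ → V) → Prop} {f g h e : (V → Prop) → (ℕ → V) → V}

/-! ### codes of formulas -/

/-- the code of a formula of stationary logic -/
noncomputable def cdA : AF → V
  | .mem i j => ZFSet.pair (nS 0) (ZFSet.pair (nS i) (nS j))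
  | .eq i j => ZFSet.pair (nS 1) (ZFSet.pair (nS i) (nS j))
  | .ins i j => ZFSet.pair (nS 2) (ZFSet.pair (nS i) (nS j))
  | .neg φ => ZFSet.pair (nS 3) (cdA φ)
  | .and φ ψ => ZFSet.pair (nS 4) (ZFSet.pair (cdA φ) (cdA ψ))
  | .ex φ => ZFSet.pair (nS 5) (cdA φ)
  | .aa φ => ZFSet.pair (nS 6) (cdA φ)

theorem cdA_inj {φ ψ : AF} (h : cdA φ = cdA ψ) : φ = ψ := by
  induction φ generalizing ψ with
  | mem i j =>
    cases ψ <;> simp only [cdA, ZFSet.pair_inj, nS_inj] at h <;> simp_all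
  | eq i j =>
    cases ψ <;> simp only [cdA, ZFSet.pair_inj, nS_inj] at h <;> simp_all
  | ins i j =>
    cases ψ <;> simp only [cdA, ZFSet.pair_inj, nS_inj] at h <;> simp_all
  | neg φ ih =>
    cases ψ <;> simp only [cdA, ZFSet.pair_inj, nS_inj] at h <;> try omega
    rw [ih h.2]
  | and φ φ' ih1 ih2 =>
    cases ψ <;> simp only [cdA, ZFSet.pair_inj, nS_inj] at h <;> try omega
    rw [ih1 h.2.1, ih2 h.2.2]
  | ex φ ih =>
    cases ψ <;> simp only [cdA, ZFSet.pair_inj, nS_inj] at h <;> try omega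
    rw [ih h.2]
  | aa φ ih =>
    cases ψ <;> simp only [cdA, ZFSet.pair_inj, nS_inj] at h <;> try omega
    rw [ih h.2]

/-- atomic codes -/
noncomputable def CDA0 : V :=
  ZFSet.prod {nS 0} (ZFSet.prod om om) ∪
    (ZFSet.prod {nS 1} (ZFSet.prod om om) ∪ ZFSet.prod {nS 2} (ZFSet.prod om om))

/-- one step -/
noncomputable def CDAs (x : V) : V :=
  x ∪ (ZFSet.prod {nS 3} x ∪ (ZFSet.prod {nS 4} (ZFSet.prod x x) ∪
    (ZFSet.prod {nS 5} x ∪ ZFSet.prod {nS 6} x)))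

/-- the set of the codes of all formulas -/
noncomputable def CDA : V :=
  itU (fun _ u => CDAs (u 0)) (fun _ _ => CDA0) (fun _ => True) fun _ => ∅

theorem tm_CDA0 : Tm ZFm (fun _ _ => CDA0) :=
  Tm.union (Tm.prod (Tm.sing (Tm.nS 0)) (Tm.prod Tm.om Tm.om))
    (Tm.union (Tm.prod (Tm.sing (Tm.nS 1)) (Tm.prod Tm.om Tm.om))
      (Tm.prod (Tm.sing (Tm.nS 2)) (Tm.prod Tm.om Tm.om)))

theorem tm_CDAs : Tm ZFm (fun _ u => CDAs (u 0)) :=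
  Tm.union (Tm.var 0) (Tm.union (Tm.prod (Tm.sing (Tm.nS 3)) (Tm.var 0))
    (Tm.union (Tm.prod (Tm.sing (Tm.nS 4)) (Tm.prod (Tm.var 0) (Tm.var 0)))
      (Tm.union (Tm.prod (Tm.sing (Tm.nS 5)) (Tm.var 0))
        (Tm.prod (Tm.sing (Tm.nS 6)) (Tm.var 0)))))

theorem it_CDA (M : V → Prop) (v : ℕ → V) (n : ℕ) :
    it (fun _ u => CDAs (u 0)) (fun _ _ => CDA0) M v n = CDAs^[n] CDA0 := by
  induction n with
  | zero => rfl
  | succ n ih =>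
    rw [Function.iterate_succ_apply', ← ih]
    rfl

theorem tm_CDA : Tm ZFm (fun _ _ => CDA) := by
  refine (Tm.itU tm_CDAs tm_CDA0).congr fun M k v hv => ?_
  ext y
  unfold CDA
  rw [mem_itU, mem_itU]
  simp only [it_CDA]

theorem mem_CDA_iff {c : V} : c ∈ CDA ↔ ∃ n, c ∈ CDAs^[n] CDA0 := by
  unfold CDA
  rw [mem_itU]
  simp only [it_CDA]

theorem CDAs_mono (n m : ℕ) (h : n ≤ m) : CDAs^[n] CDA0 ⊆ CDAs^[m] CDA0 := by
  induction m, h using Nat.le_induction with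
  | base => exact fun _ h => h
  | succ m hm ih =>
    intro x hx
    rw [Function.iterate_succ_apply']
    unfold CDAs
    exact ZFSet.mem_union.2 (Or.inl (ih hx))

theorem mem_CDA {c : V} : c ∈ CDA ↔ ∃ φ, c = cdA φ := by
  rw [mem_CDA_iff]
  constructor
  · rintro ⟨n, hn⟩
    induction n generalizing c with
    | zero =>
      have hn : c ∈ CDA0 := hn
      unfold CDA0 at hn
      simp only [ZFSet.mem_union, ZFSet.mem_prod, ZFSet.mem_singleton, mem_om] at hn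
      rcases hn with ⟨_, rfl, _, ⟨_, ⟨i, rfl⟩, _, ⟨j, rfl⟩, rfl⟩, rfl⟩ |
        ⟨_, rfl, _, ⟨_, ⟨i, rfl⟩, _, ⟨j, rfl⟩, rfl⟩, rfl⟩ |
        ⟨_, rfl, _, ⟨_, ⟨i, rfl⟩, _, ⟨j, rfl⟩, rfl⟩, rfl⟩
      · exact ⟨.mem i j, rfl⟩
      · exact ⟨.eq i j, rfl⟩
      · exact ⟨.ins i j, rfl⟩
    | succ n ih =>
      rw [Function.iterate_succ_apply'] at hn
      unfold CDAs at hn
      simp only [ZFSet.mem_union, ZFSet.mem_prod, ZFSet.mem_singleton] at hn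
      rcases hn with hn | ⟨_, rfl, a, ha, rfl⟩ | ⟨_, rfl, _, ⟨a, ha, b, hb, rfl⟩, rfl⟩ |
        ⟨_, rfl, a, ha, rfl⟩ | ⟨_, rfl, a, ha, rfl⟩
      · exact ih hn
      · obtain ⟨φ, rfl⟩ := ih ha
        exact ⟨.neg φ, rfl⟩
      · obtain ⟨φ, rfl⟩ := ih ha
        obtain ⟨ψ, rfl⟩ := ih hb
        exact ⟨.and φ ψ, rfl⟩
      · obtain ⟨φ, rfl⟩ := ih ha
        exact ⟨.ex φ, rfl⟩
      · obtain ⟨φ, rfl⟩ := ih ha
        exact ⟨.aa φ, rfl⟩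
  · rintro ⟨φ, rfl⟩
    induction φ with
    | mem i j =>
      refine ⟨0, ?_⟩
      show _ ∈ CDA0
      unfold CDA0 cdA
      simp only [ZFSet.mem_union, ZFSet.mem_prod, ZFSet.mem_singleton, mem_om]
      exact Or.inl ⟨_, rfl, _, ⟨_, ⟨i, rfl⟩, _, ⟨j, rfl⟩, rfl⟩, rfl⟩
    | eq i j =>
      refine ⟨0, ?_⟩
      show _ ∈ CDA0
      unfold CDA0 cdA
      simp only [ZFSet.mem_union, ZFSet.mem_prod, ZFSet.mem_singleton, mem_om]
      exact Or.inr (Or.inl ⟨_, rfl, _, ⟨_, ⟨i, rfl⟩, _, ⟨j, rfl⟩, rfl⟩, rfl⟩)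
    | ins i j =>
      refine ⟨0, ?_⟩
      show _ ∈ CDA0
      unfold CDA0 cdA
      simp only [ZFSet.mem_union, ZFSet.mem_prod, ZFSet.mem_singleton, mem_om]
      exact Or.inr (Or.inr ⟨_, rfl, _, ⟨_, ⟨i, rfl⟩, _, ⟨j, rfl⟩, rfl⟩, rfl⟩)
    | neg φ ih =>
      obtain ⟨n, hn⟩ := ih
      refine ⟨n + 1, ?_⟩
      rw [Function.iterate_succ_apply']
      unfold CDAs cdA
      simp only [ZFSet.mem_union, ZFSet.mem_prod, ZFSet.mem_singleton]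
      exact Or.inr (Or.inl ⟨_, rfl, _, hn, rfl⟩)
    | and φ ψ ih1 ih2 =>
      obtain ⟨n, hn⟩ := ih1
      obtain ⟨m, hm⟩ := ih2
      refine ⟨max n m + 1, ?_⟩
      rw [Function.iterate_succ_apply']
      unfold CDAs cdA
      simp only [ZFSet.mem_union, ZFSet.mem_prod, ZFSet.mem_singleton]
      exact Or.inr (Or.inr (Or.inl ⟨_, rfl, _, ⟨_, CDAs_mono _ _ (le_max_left _ _) hn, _,
        CDAs_mono _ _ (le_max_right _ _) hm, rfl⟩, rfl⟩))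
    | ex φ ih =>
      obtain ⟨n, hn⟩ := ih
      refine ⟨n + 1, ?_⟩
      rw [Function.iterate_succ_apply']
      unfold CDAs cdA
      simp only [ZFSet.mem_union, ZFSet.mem_prod, ZFSet.mem_singleton]
      exact Or.inr (Or.inr (Or.inr (Or.inl ⟨_, rfl, _, hn, rfl⟩)))
    | aa φ ih =>
      obtain ⟨n, hn⟩ := ih
      refine ⟨n + 1, ?_⟩
      rw [Function.iterate_succ_apply']
      unfold CDAs cdA
      simp only [ZFSet.mem_union, ZFSet.mem_prod, ZFSet.mem_singleton]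
      exact Or.inr (Or.inr (Or.inr (Or.inr ⟨_, rfl, _, hn, rfl⟩)))

theorem cdA_mem (φ : AF) : cdA φ ∈ CDA := mem_CDA.2 ⟨φ, rfl⟩

/-! ### sequences of finitary functions -/

theorem lc_mem_ls {A : V} {l : List V} (hl : ∀ p ∈ l, p ∈ A) {n : ℕ} :
    lc l ∈ ls A n ↔ l.length = n := by
  rw [mem_ls]
  constructor
  · rintro ⟨l', h1, -, h2⟩
    rw [lc_inj h2]
    exact h1
  · intro h1
    exact ⟨l, h1, hl, rfl⟩

theorem finF_iff {A F : V} : FinF A F ↔ F ⊆ ZFSet.prod om (ZFSet.prod (Lw A) A) ∧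
    (∀ z ∈ F, ∀ z' ∈ F, fst z = fst z' → fst (snd z) = fst (snd z') → z = z') ∧
    ∀ n ∈ om, ∃ k ∈ om, ∀ s ∈ Lw A, (s ∈ ls A (nn k) ↔ ∃ y ∈ A,
      ZFSet.pair n (ZFSet.pair s y) ∈ F) := by
  constructor
  · rintro ⟨h1, h2, h3⟩
    refine ⟨?_, ?_, ?_⟩
    · intro z hz
      obtain ⟨n, l, y, hl, hy, rfl⟩ := h1 z hz
      exact ZFSet.mem_prod.2 ⟨_, nS_mem_om n, _, ZFSet.mem_prod.2 ⟨_, mem_Lw.2 ⟨l, hl, rfl⟩, y, hy,
        rfl⟩, rfl⟩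
    · intro z hz z' hz' e1 e2
      obtain ⟨n, l, y, hl, hy, rfl⟩ := h1 z hz
      obtain ⟨n', l', y', hl', hy', rfl⟩ := h1 z' hz'
      rw [fst_pair, fst_pair] at e1
      rw [snd_pair, snd_pair, fst_pair, fst_pair] at e2
      have e3 := nS_inj.1 e1
      subst e3
      rw [e2] at hz ⊢
      rw [h2 n l' y y' hz hz']
    · intro n hn
      obtain ⟨n, rfl⟩ := mem_om.1 hn
      obtain ⟨k, hk⟩ := h3 n
      refine ⟨nS k, nS_mem_om k, ?_⟩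
      intro s hs
      obtain ⟨l, hl, rfl⟩ := mem_Lw.1 hs
      rw [nn_nS, lc_mem_ls hl, hk l hl]
      constructor
      · rintro ⟨y, hy⟩
        obtain ⟨n', l', y', hl', hy', e⟩ := h1 _ hy
        obtain ⟨-, e⟩ := ZFSet.pair_inj.1 e
        obtain ⟨-, rfl⟩ := ZFSet.pair_inj.1 e
        exact ⟨y, hy', hy⟩
      · rintro ⟨y, -, hy⟩
        exact ⟨y, hy⟩
  · rintro ⟨h1, h2, h3⟩
    have h1' : ∀ z ∈ F, ∃ (n : ℕ) (l : List V) (y : V), (∀ p ∈ l, p ∈ A) ∧ y ∈ A ∧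
        z = ZFSet.pair (nS n) (ZFSet.pair (lc l) y) := by
      intro z hz
      obtain ⟨n, hn, t, ht, rfl⟩ := ZFSet.mem_prod.1 (h1 hz)
      obtain ⟨s, hs, y, hy, rfl⟩ := ZFSet.mem_prod.1 ht
      obtain ⟨n, rfl⟩ := mem_om.1 hn
      obtain ⟨l, hl, rfl⟩ := mem_Lw.1 hs
      exact ⟨n, l, y, hl, hy, rfl⟩
    refine ⟨h1', ?_, ?_⟩
    · intro n l y y' hy hy'
      have h4 := h2 _ hy _ hy' (by rw [fst_pair, fst_pair])
        (by rw [snd_pair, snd_pair, fst_pair, fst_pair])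
      obtain ⟨-, e⟩ := ZFSet.pair_inj.1 h4
      exact (ZFSet.pair_inj.1 e).2
    · intro n
      obtain ⟨k, hk, h4⟩ := h3 _ (nS_mem_om n)
      obtain ⟨k, rfl⟩ := mem_om.1 hk
      refine ⟨k, ?_⟩
      intro l hl
      have h5 := h4 _ (mem_Lw.2 ⟨l, hl, rfl⟩)
      rw [nn_nS, lc_mem_ls hl] at h5
      rw [h5]
      constructor
      · rintro ⟨y, -, hy⟩
        exact ⟨y, hy⟩
      · rintro ⟨y, hy⟩
        obtain ⟨n', l', y', hl', hy', e⟩ := h1' _ hy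
        obtain ⟨-, e⟩ := ZFSet.pair_inj.1 e
        obtain ⟨-, rfl⟩ := ZFSet.pair_inj.1 e
        exact ⟨y, hy', hy⟩

theorem dfb_finF (hf : Tm ZFm f) (hg : Tm ZFm g) : Dfb ZFm (fun M v => FinF (f M v) (g M v)) := by
  refine Dfb.at2 (P := fun _ x y => FinF x y) ?_ hf hg
  have h1 : Dfb ZFm (fun _ v => v 1 ⊆ ZFSet.prod om (ZFSet.prod (Lw (v 0)) (v 0))) :=
    Dfb.subset (Tm.var 1) (Tm.prod Tm.om (Tm.prod (Tm.Lw (Tm.var 0)) (Tm.var 0)))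
  have h2 : Dfb ZFm (fun _ v => ∀ z ∈ v 1, ∀ z' ∈ v 1, (fst z = fst z' →
      fst (snd z) = fst (snd z') → z = z')) := by
    refine (Dfb.ball (R := fun _ v => ∀ z' ∈ v 2, (fst (v 0) = fst z' →
      fst (snd (v 0)) = fst (snd z') → v 0 = z')) ktr_zfm (Tm.var 1) ?_).congr
      fun M k v hv => Iff.rfl
    refine (Dfb.ball (R := fun _ v => (fst (v 1) = fst (v 0) →
      fst (snd (v 1)) = fst (snd (v 0)) → v 1 = v 0)) ktr_zfm (Tm.var 2) ?_).congr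
      fun M k v hv => Iff.rfl
    exact (Dfb.eq (Tm.fst (Tm.var 1)) (Tm.fst (Tm.var 0))).imp
      ((Dfb.eq (Tm.fst (Tm.snd (Tm.var 1))) (Tm.fst (Tm.snd (Tm.var 0)))).imp
        (Dfb.eq (Tm.var 1) (Tm.var 0)))
  have h3 : Dfb ZFm (fun _ v => ∀ n ∈ om, ∃ k ∈ om, ∀ s ∈ Lw (v 0), (s ∈ ls (v 0) (nn k) ↔
      ∃ y ∈ v 0, ZFSet.pair n (ZFSet.pair s y) ∈ v 1)) := by
    refine (Dfb.ball (R := fun _ v => ∃ k ∈ om, ∀ s ∈ Lw (v 1), (s ∈ ls (v 1) (nn k) ↔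
      ∃ y ∈ v 1, ZFSet.pair (v 0) (ZFSet.pair s y) ∈ v 2)) ktr_zfm Tm.om ?_).congr
      fun M k v hv => Iff.rfl
    refine (Dfb.bex (R := fun _ v => ∀ s ∈ Lw (v 2), (s ∈ ls (v 2) (nn (v 0)) ↔
      ∃ y ∈ v 2, ZFSet.pair (v 1) (ZFSet.pair s y) ∈ v 3)) ktr_zfm Tm.om ?_).congr
      fun M k v hv => Iff.rfl
    refine (Dfb.ball (R := fun _ v => (v 0 ∈ ls (v 3) (nn (v 1)) ↔
      ∃ y ∈ v 3, ZFSet.pair (v 2) (ZFSet.pair (v 0) y) ∈ v 4)) ktr_zfm (Tm.Lw (Tm.var 2))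
      ?_).congr fun M k v hv => Iff.rfl
    refine (Dfb.mem (Tm.var 0) (Tm.ls (Tm.var 3) (Tm.var 1))).iff ?_
    exact (Dfb.bex (R := fun _ v => ZFSet.pair (v 3) (ZFSet.pair (v 1) (v 0)) ∈ v 5) ktr_zfm
      (Tm.var 3) (Dfb.mem (Tm.pair (Tm.var 3) (Tm.pair (Tm.var 1) (Tm.var 0)))
        (Tm.var 5))).congr fun M k v hv => Iff.rfl
  exact (h1.and (h2.and h3)).congr fun M k v hv => finF_iff.symm

theorem clo_iff {F z : V} : Clo F z ↔ ∀ n ∈ om, ∀ s ∈ Lw z, ∀ q ∈ F,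
    (q = ZFSet.pair n (ZFSet.pair s (snd (snd q))) → snd (snd q) ∈ z) := by
  unfold Clo
  constructor
  · intro h n hn s hs q hq e
    obtain ⟨n, rfl⟩ := mem_om.1 hn
    obtain ⟨l, hl, rfl⟩ := mem_Lw.1 hs
    exact h n l _ hl (e ▸ hq)
  · intro h n l y hl hy
    have h1 := h _ (nS_mem_om n) _ (mem_Lw.2 ⟨l, hl, rfl⟩) _ hy
    rw [snd_pair, snd_pair] at h1
    exact h1 rfl

theorem dfb_clo (hf : Tm ZFm f) (hg : Tm ZFm g) : Dfb ZFm (fun M v => Clo (f M v) (g M v)) := by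
  refine Dfb.at2 (P := fun _ x y => Clo x y) ?_ hf hg
  have h1 : Dfb ZFm (fun _ v => ∀ n ∈ om, ∀ s ∈ Lw (v 1), ∀ q ∈ v 0,
      (q = ZFSet.pair n (ZFSet.pair s (snd (snd q))) → snd (snd q) ∈ v 1)) := by
    refine (Dfb.ball (R := fun _ v => ∀ s ∈ Lw (v 2), ∀ q ∈ v 1,
      (q = ZFSet.pair (v 0) (ZFSet.pair s (snd (snd q))) → snd (snd q) ∈ v 2)) ktr_zfm Tm.om
      ?_).congr fun M k v hv => Iff.rfl
    refine (Dfb.ball (R := fun _ v => ∀ q ∈ v 2,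
      (q = ZFSet.pair (v 1) (ZFSet.pair (v 0) (snd (snd q))) → snd (snd q) ∈ v 3)) ktr_zfm
      (Tm.Lw (Tm.var 2)) ?_).congr fun M k v hv => Iff.rfl
    refine (Dfb.ball (R := fun _ v =>
      (v 0 = ZFSet.pair (v 2) (ZFSet.pair (v 1) (snd (snd (v 0)))) → snd (snd (v 0)) ∈ v 4))
      ktr_zfm (Tm.var 2) ?_).congr fun M k v hv => Iff.rfl
    exact (Dfb.eq (Tm.var 0) (Tm.pair (Tm.var 2) (Tm.pair (Tm.var 1)
      (Tm.snd (Tm.snd (Tm.var 0)))))).imp (Dfb.mem (Tm.snd (Tm.snd (Tm.var 0))) (Tm.var 4))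
  exact h1.congr fun M k v hv => clo_iff.symm

theorem dfb_ctblS (hf : Tm ZFm f) (hg : Tm ZFm g) :
    Dfb ZFm (fun M v => Ctbl (· ∈ f M v) (g M v)) := by
  refine Dfb.at2 (P := fun _ x y => Ctbl (· ∈ x) y) ?_ hf hg
  refine (Dfb.eq (Tm.var 1) Tm.empty).or ?_
  exact (Dfb.bex (R := fun _ v => Onto (v 0) om (v 2)) ktr_zfm (Tm.var 0)
    (Dfb.onto (Tm.var 0) Tm.om (Tm.var 2))).congr fun M k v hv => Iff.rfl

/-! ### satisfaction -/

/-- the assignment with default value `d`, list `l`, and list `m` of the set variables -/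
noncomputable def plA (d : V) (l m : List V) : V := ZFSet.pair d (ZFSet.pair (lc l) (lc m))

/-- the first order part -/
noncomputable def p1 (t : V) : V := ZFSet.pair (fst t) (fst (snd t))

/-- the part of the set variables -/
noncomputable def p2 (t : V) : V := ZFSet.pair ∅ (snd (snd t))

theorem p1_plA (d : V) (l m : List V) : p1 (plA d l m) = pl d l := by
  unfold p1 plA pl
  rw [fst_pair, snd_pair, fst_pair]

theorem p2_plA (d : V) (l m : List V) : p2 (plA d l m) = pl ∅ m := by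
  unfold p2 plA pl
  rw [snd_pair, snd_pair]

theorem tm_p1 (hf : Tm ZFm f) : Tm ZFm (fun M v => p1 (f M v)) :=
  Tm.pair (Tm.fst hf) (Tm.fst (Tm.snd hf))

theorem tm_p2 (hf : Tm ZFm f) : Tm ZFm (fun M v => p2 (f M v)) :=
  Tm.pair Tm.empty (Tm.snd (Tm.snd hf))

/-- the assignments with values in `A` and `N` -/
noncomputable def PA (A N : V) : V := ZFSet.prod A (ZFSet.prod (Lw A) (Lw N))

theorem mem_PA {A N t : V} : t ∈ PA A N ↔ ∃ d l m, t = plA d l m ∧ d ∈ A ∧ (∀ p ∈ l, p ∈ A) ∧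
    ∀ p ∈ m, p ∈ N := by
  unfold PA plA
  rw [ZFSet.mem_prod]
  constructor
  · rintro ⟨d, hd, u, hu, rfl⟩
    obtain ⟨s, hs, r, hr, rfl⟩ := ZFSet.mem_prod.1 hu
    obtain ⟨l, hl, rfl⟩ := mem_Lw.1 hs
    obtain ⟨m, hm, rfl⟩ := mem_Lw.1 hr
    exact ⟨d, l, m, rfl, hd, hl, hm⟩
  · rintro ⟨d, l, m, rfl, hd, hl, hm⟩
    exact ⟨d, hd, _, ZFSet.mem_prod.2 ⟨_, mem_Lw.2 ⟨l, hl, rfl⟩, _, mem_Lw.2 ⟨m, hm, rfl⟩, rfl⟩,
      rfl⟩

theorem tm_PA (hf : Tm ZFm f) (hg : Tm ZFm g) : Tm ZFm (fun M v => PA (f M v) (g M v)) :=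
  Tm.prod hf (Tm.prod (Tm.Lw hf) (Tm.Lw hg))

/-- the set of the assignments with values in `A` and `N` which satisfy the formula with code
`c` -/
noncomputable def sA (A N c : V) : V :=
  (PA A N).sep fun t => ∃ φ, c = cdA φ ∧ AaSat (· ∈ N) A φ (fun i => vn i (p1 t))
    fun k => vn k (p2 t)

theorem plA_mem_sA {A N d : V} {l m : List V} {φ : AF} (hd : d ∈ A) (hl : ∀ p ∈ l, p ∈ A)
    (hm : ∀ p ∈ m, p ∈ N) :
    plA d l m ∈ sA A N (cdA φ) ↔ AaSat (· ∈ N) A φ (fun i => l.getD i d) fun k => m.getD k ∅ := by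
  unfold sA
  rw [ZFSet.mem_sep, p1_plA, p2_plA]
  have e : (fun i => vn i (pl d l)) = fun i => l.getD i d := by
    funext i
    exact vn_pl i d l
  have e' : (fun i => vn i (pl ∅ m)) = fun i => m.getD i ∅ := by
    funext i
    exact vn_pl i ∅ m
  rw [e, e']
  constructor
  · rintro ⟨-, ψ, h1, h2⟩
    rw [cdA_inj h1]
    exact h2
  · intro h
    exact ⟨mem_PA.2 ⟨d, l, m, rfl, hd, hl, hm⟩, φ, rfl, h⟩

theorem mem_sA {A N c t : V} : t ∈ sA A N c ↔ ∃ φ d l m, c = cdA φ ∧ t = plA d l m ∧ d ∈ A ∧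
    (∀ p ∈ l, p ∈ A) ∧ (∀ p ∈ m, p ∈ N) ∧
    AaSat (· ∈ N) A φ (fun i => l.getD i d) fun k => m.getD k ∅ := by
  constructor
  · intro h
    have h' := h
    unfold sA at h'
    rw [ZFSet.mem_sep, mem_PA] at h'
    obtain ⟨⟨d, l, m, rfl, hd, hl, hm⟩, φ, rfl, -⟩ := h'
    exact ⟨φ, d, l, m, rfl, rfl, hd, hl, hm, (plA_mem_sA hd hl hm).1 h⟩
  · rintro ⟨φ, d, l, m, rfl, rfl, hd, hl, hm, h⟩
    exact (plA_mem_sA hd hl hm).2 h

/-- the recursion step for satisfaction: the assignment is `w 0`, the previous values are given by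
`w 1`, the code is `w 2`, the structure is `w 3`, the class is `w 4` -/
def ARel (w : ℕ → V) : Prop :=
  (∃ i ∈ om, ∃ j ∈ om, w 2 = ZFSet.pair (nS 0) (ZFSet.pair i j) ∧
    vn (nn i) (p1 (w 0)) ∈ vn (nn j) (p1 (w 0))) ∨
  (∃ i ∈ om, ∃ j ∈ om, w 2 = ZFSet.pair (nS 1) (ZFSet.pair i j) ∧
    vn (nn i) (p1 (w 0)) = vn (nn j) (p1 (w 0))) ∨
  (∃ i ∈ om, ∃ j ∈ om, w 2 = ZFSet.pair (nS 2) (ZFSet.pair i j) ∧
    vn (nn i) (p1 (w 0)) ∈ vn (nn j) (p2 (w 0))) ∨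
  (∃ d ∈ CDA, w 2 = ZFSet.pair (nS 3) d ∧ ¬ w 0 ∈ app (w 1) d) ∨
  (∃ d ∈ CDA, ∃ e ∈ CDA, w 2 = ZFSet.pair (nS 4) (ZFSet.pair d e) ∧ w 0 ∈ app (w 1) d ∧
    w 0 ∈ app (w 1) e) ∨
  (∃ d ∈ CDA, w 2 = ZFSet.pair (nS 5) d ∧
    ∃ a ∈ w 3, ZFSet.pair (fst (w 0)) (ZFSet.pair (ZFSet.pair a (fst (snd (w 0))))
      (snd (snd (w 0)))) ∈ app (w 1) d) ∨
  (∃ d ∈ CDA, w 2 = ZFSet.pair (nS 6) d ∧
    ∃ F ∈ w 4, FinF (w 3) F ∧ ∀ z ∈ w 4, (Ctbl (· ∈ w 4) z → z ⊆ w 3 → Clo F z →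
      ZFSet.pair (fst (w 0)) (ZFSet.pair (fst (snd (w 0)))
        (ZFSet.pair z (snd (snd (w 0))))) ∈ app (w 1) d))

theorem dfb_ARel : Dfb ZFm (fun _ w => ARel w) := by
  refine Dfb.or ?_ (Dfb.or ?_ (Dfb.or ?_ (Dfb.or ?_ (Dfb.or ?_ (Dfb.or ?_ ?_)))))
  · refine (Dfb.bex (R := fun _ w => ∃ j ∈ om, w 3 = ZFSet.pair (nS 0) (ZFSet.pair (w 0) j) ∧
      vn (nn (w 0)) (p1 (w 1)) ∈ vn (nn j) (p1 (w 1))) ktr_zfm Tm.om ?_).congr
      fun M k v hv => Iff.rfl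
    refine (Dfb.bex (R := fun _ w => w 4 = ZFSet.pair (nS 0) (ZFSet.pair (w 1) (w 0)) ∧
      vn (nn (w 1)) (p1 (w 2)) ∈ vn (nn (w 0)) (p1 (w 2))) ktr_zfm Tm.om ?_).congr
      fun M k v hv => Iff.rfl
    exact (Dfb.isPair (Tm.var 4) (Tm.nS 0) (Tm.pair (Tm.var 1) (Tm.var 0))).and
      (Dfb.mem (Tm.vn (Tm.var 1) (tm_p1 (Tm.var 2))) (Tm.vn (Tm.var 0) (tm_p1 (Tm.var 2))))
  · refine (Dfb.bex (R := fun _ w => ∃ j ∈ om, w 3 = ZFSet.pair (nS 1) (ZFSet.pair (w 0) j) ∧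
      vn (nn (w 0)) (p1 (w 1)) = vn (nn j) (p1 (w 1))) ktr_zfm Tm.om ?_).congr
      fun M k v hv => Iff.rfl
    refine (Dfb.bex (R := fun _ w => w 4 = ZFSet.pair (nS 1) (ZFSet.pair (w 1) (w 0)) ∧
      vn (nn (w 1)) (p1 (w 2)) = vn (nn (w 0)) (p1 (w 2))) ktr_zfm Tm.om ?_).congr
      fun M k v hv => Iff.rfl
    exact (Dfb.isPair (Tm.var 4) (Tm.nS 1) (Tm.pair (Tm.var 1) (Tm.var 0))).and
      (Dfb.eq (Tm.vn (Tm.var 1) (tm_p1 (Tm.var 2))) (Tm.vn (Tm.var 0) (tm_p1 (Tm.var 2))))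
  · refine (Dfb.bex (R := fun _ w => ∃ j ∈ om, w 3 = ZFSet.pair (nS 2) (ZFSet.pair (w 0) j) ∧
      vn (nn (w 0)) (p1 (w 1)) ∈ vn (nn j) (p2 (w 1))) ktr_zfm Tm.om ?_).congr
      fun M k v hv => Iff.rfl
    refine (Dfb.bex (R := fun _ w => w 4 = ZFSet.pair (nS 2) (ZFSet.pair (w 1) (w 0)) ∧
      vn (nn (w 1)) (p1 (w 2)) ∈ vn (nn (w 0)) (p2 (w 2))) ktr_zfm Tm.om ?_).congr
      fun M k v hv => Iff.rfl
    exact (Dfb.isPair (Tm.var 4) (Tm.nS 2) (Tm.pair (Tm.var 1) (Tm.var 0))).and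
      (Dfb.mem (Tm.vn (Tm.var 1) (tm_p1 (Tm.var 2))) (Tm.vn (Tm.var 0) (tm_p2 (Tm.var 2))))
  · refine (Dfb.bex (R := fun _ w => w 3 = ZFSet.pair (nS 3) (w 0) ∧
      ¬ w 1 ∈ app (w 2) (w 0)) ktr_zfm tm_CDA ?_).congr fun M k v hv => Iff.rfl
    exact (Dfb.isPair (Tm.var 3) (Tm.nS 3) (Tm.var 0)).and
      (Dfb.mem (Tm.var 1) (Tm.app (Tm.var 2) (Tm.var 0))).not
  · refine (Dfb.bex (R := fun _ w => ∃ e ∈ CDA, w 3 = ZFSet.pair (nS 4) (ZFSet.pair (w 0) e) ∧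
      w 1 ∈ app (w 2) (w 0) ∧ w 1 ∈ app (w 2) e) ktr_zfm tm_CDA ?_).congr
      fun M k v hv => Iff.rfl
    refine (Dfb.bex (R := fun _ w => w 4 = ZFSet.pair (nS 4) (ZFSet.pair (w 1) (w 0)) ∧
      w 2 ∈ app (w 3) (w 1) ∧ w 2 ∈ app (w 3) (w 0)) ktr_zfm tm_CDA ?_).congr
      fun M k v hv => Iff.rfl
    exact (Dfb.isPair (Tm.var 4) (Tm.nS 4) (Tm.pair (Tm.var 1) (Tm.var 0))).and
      ((Dfb.mem (Tm.var 2) (Tm.app (Tm.var 3) (Tm.var 1))).and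
        (Dfb.mem (Tm.var 2) (Tm.app (Tm.var 3) (Tm.var 0))))
  · refine (Dfb.bex (R := fun _ w => w 3 = ZFSet.pair (nS 5) (w 0) ∧
      ∃ a ∈ w 4, ZFSet.pair (fst (w 1)) (ZFSet.pair (ZFSet.pair a (fst (snd (w 1))))
        (snd (snd (w 1)))) ∈ app (w 2) (w 0))
      ktr_zfm tm_CDA ?_).congr fun M k v hv => Iff.rfl
    refine (Dfb.isPair (Tm.var 3) (Tm.nS 5) (Tm.var 0)).and ?_
    refine (Dfb.bex (R := fun _ w => ZFSet.pair (fst (w 2)) (ZFSet.pair (ZFSet.pair (w 0)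
      (fst (snd (w 2)))) (snd (snd (w 2)))) ∈ app (w 3) (w 1)) ktr_zfm (Tm.var 4) ?_).congr
      fun M k v hv => Iff.rfl
    exact Dfb.mem (Tm.pair (Tm.fst (Tm.var 2)) (Tm.pair (Tm.pair (Tm.var 0)
      (Tm.fst (Tm.snd (Tm.var 2)))) (Tm.snd (Tm.snd (Tm.var 2))))) (Tm.app (Tm.var 3) (Tm.var 1))
  · refine (Dfb.bex (R := fun _ w => w 3 = ZFSet.pair (nS 6) (w 0) ∧
      ∃ F ∈ w 5, FinF (w 4) F ∧ ∀ z ∈ w 5, (Ctbl (· ∈ w 5) z → z ⊆ w 4 → Clo F z →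
        ZFSet.pair (fst (w 1)) (ZFSet.pair (fst (snd (w 1)))
          (ZFSet.pair z (snd (snd (w 1))))) ∈ app (w 2) (w 0)))
      ktr_zfm tm_CDA ?_).congr fun M k v hv => Iff.rfl
    refine (Dfb.isPair (Tm.var 3) (Tm.nS 6) (Tm.var 0)).and ?_
    refine (Dfb.bex (R := fun _ w => FinF (w 5) (w 0) ∧ ∀ z ∈ w 6, (Ctbl (· ∈ w 6) z →
      z ⊆ w 5 → Clo (w 0) z → ZFSet.pair (fst (w 2)) (ZFSet.pair (fst (snd (w 2)))
          (ZFSet.pair z (snd (snd (w 2))))) ∈ app (w 3) (w 1))) ktr_zfm (Tm.var 5) ?_).congr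
      fun M k v hv => Iff.rfl
    refine (dfb_finF (Tm.var 5) (Tm.var 0)).and ?_
    refine (Dfb.ball (R := fun _ w => (Ctbl (· ∈ w 7) (w 0) →
      w 0 ⊆ w 6 → Clo (w 1) (w 0) → ZFSet.pair (fst (w 3)) (ZFSet.pair (fst (snd (w 3)))
          (ZFSet.pair (w 0) (snd (snd (w 3))))) ∈ app (w 4) (w 2))) ktr_zfm (Tm.var 6) ?_).congr
      fun M k v hv => Iff.rfl
    exact (dfb_ctblS (Tm.var 7) (Tm.var 0)).imp ((Dfb.subset (Tm.var 0) (Tm.var 6)).imp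
      ((dfb_clo (Tm.var 1) (Tm.var 0)).imp
        (Dfb.mem (Tm.pair (Tm.fst (Tm.var 3)) (Tm.pair (Tm.fst (Tm.snd (Tm.var 3)))
          (Tm.pair (Tm.var 0) (Tm.snd (Tm.snd (Tm.var 3)))))) (Tm.app (Tm.var 4) (Tm.var 2)))))

/-- the immediate subformulas -/
noncomputable def subA (c : V) : V :=
  CDA.sep fun d => (c = ZFSet.pair (nS 3) d ∨ c = ZFSet.pair (nS 5) d ∨
    c = ZFSet.pair (nS 6) d) ∨
    ∃ e ∈ CDA, c = ZFSet.pair (nS 4) (ZFSet.pair d e) ∨ c = ZFSet.pair (nS 4) (ZFSet.pair e d)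

theorem tm_subA : Tm ZFm (fun _ v => subA (v 0)) := by
  refine (Tm.sep (R := fun _ v => (v 1 = ZFSet.pair (nS 3) (v 0) ∨
    v 1 = ZFSet.pair (nS 5) (v 0) ∨ v 1 = ZFSet.pair (nS 6) (v 0)) ∨
    ∃ e ∈ CDA, v 1 = ZFSet.pair (nS 4) (ZFSet.pair (v 0) e) ∨
      v 1 = ZFSet.pair (nS 4) (ZFSet.pair e (v 0))) ?_ tm_CDA).congr fun M k v hv => rfl
  refine ((Dfb.isPair (Tm.var 1) (Tm.nS 3) (Tm.var 0)).or
    ((Dfb.isPair (Tm.var 1) (Tm.nS 5) (Tm.var 0)).or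
      (Dfb.isPair (Tm.var 1) (Tm.nS 6) (Tm.var 0)))).or ?_
  refine (Dfb.bex (R := fun _ v => v 2 = ZFSet.pair (nS 4) (ZFSet.pair (v 1) (v 0)) ∨
      v 2 = ZFSet.pair (nS 4) (ZFSet.pair (v 0) (v 1))) ktr_zfm tm_CDA ?_).congr
    fun M k v hv => Iff.rfl
  exact (Dfb.isPair (Tm.var 2) (Tm.nS 4) (Tm.pair (Tm.var 1) (Tm.var 0))).or
    (Dfb.isPair (Tm.var 2) (Tm.nS 4) (Tm.pair (Tm.var 0) (Tm.var 1)))

theorem rank_subA {c d : V} (h : d ∈ subA c) : d.rank < c.rank := by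
  unfold subA at h
  rw [ZFSet.mem_sep] at h
  rcases h with ⟨-, (rfl | rfl | rfl) | ⟨e, -, rfl | rfl⟩⟩
  · exact rank_lt_pair_right _ _
  · exact rank_lt_pair_right _ _
  · exact rank_lt_pair_right _ _
  · exact (rank_lt_pair_left _ _).trans (rank_lt_pair_right _ _)
  · exact (rank_lt_pair_right _ _).trans (rank_lt_pair_right _ _)

theorem mem_subA_neg (φ : AF) : cdA φ ∈ subA (cdA (.neg φ)) := by
  unfold subA
  rw [ZFSet.mem_sep]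
  exact ⟨cdA_mem φ, Or.inl (Or.inl rfl)⟩

theorem mem_subA_ex (φ : AF) : cdA φ ∈ subA (cdA (.ex φ)) := by
  unfold subA
  rw [ZFSet.mem_sep]
  exact ⟨cdA_mem φ, Or.inl (Or.inr (Or.inl rfl))⟩

theorem mem_subA_aa (φ : AF) : cdA φ ∈ subA (cdA (.aa φ)) := by
  unfold subA
  rw [ZFSet.mem_sep]
  exact ⟨cdA_mem φ, Or.inl (Or.inr (Or.inr rfl))⟩

theorem mem_subA_left (φ ψ : AF) : cdA φ ∈ subA (cdA (.and φ ψ)) := by
  unfold subA
  rw [ZFSet.mem_sep]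
  exact ⟨cdA_mem φ, Or.inr ⟨_, cdA_mem ψ, Or.inl rfl⟩⟩

theorem mem_subA_right (φ ψ : AF) : cdA ψ ∈ subA (cdA (.and φ ψ)) := by
  unfold subA
  rw [ZFSet.mem_sep]
  exact ⟨cdA_mem ψ, Or.inr ⟨_, cdA_mem φ, Or.inr rfl⟩⟩

theorem plA_push (d a : V) (l m : List V) :
    ZFSet.pair (fst (plA d l m)) (ZFSet.pair (ZFSet.pair a (fst (snd (plA d l m))))
      (snd (snd (plA d l m)))) = plA d (a :: l) m := by
  unfold plA
  rw [fst_pair, snd_pair, fst_pair, snd_pair]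
  rfl

theorem plA_push2 (d a : V) (l m : List V) :
    ZFSet.pair (fst (plA d l m)) (ZFSet.pair (fst (snd (plA d l m)))
      (ZFSet.pair a (snd (snd (plA d l m))))) = plA d l (a :: m) := by
  unfold plA
  rw [fst_pair, snd_pair, fst_pair, snd_pair]
  rfl

theorem forall_cons {x a : V} {l : List V} (ha : a ∈ x) (hl : ∀ p ∈ l, p ∈ x) :
    ∀ p ∈ a :: l, p ∈ x := by
  intro p hp
  rcases List.mem_cons.1 hp with rfl | hp
  · exact ha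
  · exact hl p hp

/-- the recursion equation of satisfaction -/
theorem sA_rec {A N c t r : V} (hr : ∀ d ∈ subA c, app r d = sA A N d) (w : ℕ → V)
    (h0 : w 0 = t) (h1 : w 1 = r) (h2 : w 2 = c) (h3 : w 3 = A) (h4 : w 4 = N) :
    t ∈ sA A N c ↔ t ∈ PA A N ∧ ARel w := by
  unfold ARel
  rw [h0, h1, h2, h3, h4]
  constructor
  · intro ht
    obtain ⟨φ, d, l, m, rfl, rfl, hd, hl, hm, h⟩ := mem_sA.1 ht
    refine ⟨mem_PA.2 ⟨d, l, m, rfl, hd, hl, hm⟩, ?_⟩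
    cases φ with
    | mem i j =>
      left
      refine ⟨nS i, nS_mem_om i, nS j, nS_mem_om j, rfl, ?_⟩
      rw [nn_nS, nn_nS, p1_plA, vn_pl, vn_pl]
      exact h
    | eq i j =>
      right; left
      refine ⟨nS i, nS_mem_om i, nS j, nS_mem_om j, rfl, ?_⟩
      rw [nn_nS, nn_nS, p1_plA, vn_pl, vn_pl]
      exact h
    | ins i j =>
      right; right; left
      refine ⟨nS i, nS_mem_om i, nS j, nS_mem_om j, rfl, ?_⟩
      rw [nn_nS, nn_nS, p1_plA, p2_plA, vn_pl, vn_pl]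
      exact h
    | neg φ =>
      right; right; right; left
      refine ⟨cdA φ, cdA_mem φ, rfl, ?_⟩
      rw [hr _ (mem_subA_neg φ), plA_mem_sA hd hl hm]
      exact h
    | and φ ψ =>
      right; right; right; right; left
      refine ⟨cdA φ, cdA_mem φ, cdA ψ, cdA_mem ψ, rfl, ?_⟩
      rw [hr _ (mem_subA_left φ ψ), hr _ (mem_subA_right φ ψ), plA_mem_sA hd hl hm,
        plA_mem_sA hd hl hm]
      exact h
    | ex φ =>
      right; right; right; right; right; left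
      refine ⟨cdA φ, cdA_mem φ, rfl, ?_⟩
      obtain ⟨a, ha, h⟩ := h
      refine ⟨a, ha, ?_⟩
      rw [hr _ (mem_subA_ex φ), plA_push, plA_mem_sA hd (forall_cons ha hl) hm, getD_cons]
      exact h
    | aa φ =>
      right; right; right; right; right; right
      refine ⟨cdA φ, cdA_mem φ, rfl, ?_⟩
      obtain ⟨F, hF, hF2, h⟩ := h
      refine ⟨F, hF, hF2, fun z hz g1 g2 g3 => ?_⟩
      rw [hr _ (mem_subA_aa φ), plA_push2, plA_mem_sA hd hl (forall_cons hz hm)]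
      have h5 := h z hz g1 g2 g3
      rw [getD_cons]
      exact h5
  · rintro ⟨ht, h⟩
    obtain ⟨d, l, m, rfl, hd, hl, hm⟩ := mem_PA.1 ht
    rcases h with ⟨i, hi, j, hj, hc, h⟩ | ⟨i, hi, j, hj, hc, h⟩ | ⟨i, hi, j, hj, hc, h⟩ |
      ⟨a, ha, hc, h⟩ | ⟨a, ha, b, hb, hc, h, h'⟩ | ⟨a, ha, hc, b, hb, h⟩ |
      ⟨a, ha, hc, F, hF, hF2, h⟩
    · obtain ⟨i, rfl⟩ := mem_om.1 hi
      obtain ⟨j, rfl⟩ := mem_om.1 hj
      have hc : c = cdA (.mem i j) := hc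
      rw [nn_nS, nn_nS, p1_plA, vn_pl, vn_pl] at h
      rw [hc, plA_mem_sA hd hl hm]
      exact h
    · obtain ⟨i, rfl⟩ := mem_om.1 hi
      obtain ⟨j, rfl⟩ := mem_om.1 hj
      have hc : c = cdA (.eq i j) := hc
      rw [nn_nS, nn_nS, p1_plA, vn_pl, vn_pl] at h
      rw [hc, plA_mem_sA hd hl hm]
      exact h
    · obtain ⟨i, rfl⟩ := mem_om.1 hi
      obtain ⟨j, rfl⟩ := mem_om.1 hj
      have hc : c = cdA (.ins i j) := hc
      rw [nn_nS, nn_nS, p1_plA, p2_plA, vn_pl, vn_pl] at h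
      rw [hc, plA_mem_sA hd hl hm]
      exact h
    · obtain ⟨φ, rfl⟩ := mem_CDA.1 ha
      have hc : c = cdA (.neg φ) := hc
      subst hc
      rw [hr _ (mem_subA_neg φ), plA_mem_sA hd hl hm] at h
      rw [plA_mem_sA hd hl hm]
      exact h
    · obtain ⟨φ, rfl⟩ := mem_CDA.1 ha
      obtain ⟨ψ, rfl⟩ := mem_CDA.1 hb
      have hc : c = cdA (.and φ ψ) := hc
      subst hc
      rw [hr _ (mem_subA_left φ ψ), plA_mem_sA hd hl hm] at h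
      rw [hr _ (mem_subA_right φ ψ), plA_mem_sA hd hl hm] at h'
      rw [plA_mem_sA hd hl hm]
      exact ⟨h, h'⟩
    · obtain ⟨φ, rfl⟩ := mem_CDA.1 ha
      have hc : c = cdA (.ex φ) := hc
      subst hc
      rw [hr _ (mem_subA_ex φ), plA_push, plA_mem_sA hd (forall_cons hb hl) hm, getD_cons] at h
      rw [plA_mem_sA hd hl hm]
      exact ⟨b, hb, h⟩
    · obtain ⟨φ, rfl⟩ := mem_CDA.1 ha
      have hc : c = cdA (.aa φ) := hc
      subst hc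
      rw [plA_mem_sA hd hl hm]
      refine ⟨F, hF, hF2, fun z hz g1 g2 g3 => ?_⟩
      have h5 := h z hz g1 g2 g3
      rw [hr _ (mem_subA_aa φ), plA_push2, plA_mem_sA hd hl (forall_cons hz hm), getD_cons] at h5
      exact h5

theorem tm_sA0 : Tm ZFm (fun _ v => sA (v 1) (v 2) (v 0)) := by
  refine tm_recu (ext := fun _ v => subA (v 0))
    (Φ := fun M u => (PA (u 2) (u 3)).sep fun t => ARel (cons t u))
    ZFSet.rank tm_subA ?_ ?_ ?_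
  · exact Tm.sep (R := fun _ w => ARel w) dfb_ARel (tm_PA (Tm.var 2) (Tm.var 3))
  · intro M k v hv y hy
    exact rank_subA hy
  · intro M k v hv
    simp only [cons_zero, cons_succ]
    ext t
    rw [ZFSet.mem_sep]
    exact sA_rec (fun d hd => app_resS hd) _ rfl rfl rfl rfl rfl

theorem tm_sA (hf : Tm ZFm f) (hg : Tm ZFm g) (hh : Tm ZFm h) :
    Tm ZFm (fun M v => sA (f M v) (g M v) (h M v)) :=
  Tm.at3 (F := fun _ x y z => sA x y z)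
    (tm_sA0.rn fun i => if i = 0 then 2 else i - 1) hf hg hh

/-! ### definable subsets -/

theorem mem_DefA {N A y : V} : y ∈ DefA (· ∈ N) A ↔ ∃ c ∈ CDA, ∃ s ∈ Lw A,
    y = A.sep fun z => ZFSet.pair z (ZFSet.pair (ZFSet.pair z s) ∅) ∈ sA A N c := by
  have key : ∀ (φ : AF) (l : List V), (∀ p ∈ l, p ∈ A) →
      (A.sep fun z => AaSat (· ∈ N) A φ (cons z fun i => l.getD i z) fun _ => ∅) =
      A.sep fun z => ZFSet.pair z (ZFSet.pair (ZFSet.pair z (lc l)) ∅) ∈ sA A N (cdA φ) := by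
    intro φ l hl
    ext z
    rw [ZFSet.mem_sep, ZFSet.mem_sep]
    refine and_congr_right fun hz => ?_
    have h1 : ZFSet.pair z (ZFSet.pair (ZFSet.pair z (lc l)) ∅) = plA z (z :: l) [] := rfl
    rw [h1, plA_mem_sA hz (forall_cons hz hl) (by simp), getD_cons]
    have h2 : (fun k : ℕ => ([] : List V).getD k ∅) = fun _ => (∅ : V) := by
      funext k
      simp
    rw [h2]
  unfold DefA
  rw [ZFSet.mem_sep]
  constructor
  · rintro ⟨-, φ, l, hl, rfl⟩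
    exact ⟨cdA φ, cdA_mem φ, lc l, mem_Lw.2 ⟨l, hl, rfl⟩, key φ l hl⟩
  · rintro ⟨c, hc, s, hs, rfl⟩
    refine ⟨ZFSet.mem_powerset.2 ZFSet.sep_subset, ?_⟩
    obtain ⟨φ, rfl⟩ := mem_CDA.1 hc
    obtain ⟨l, hl, rfl⟩ := mem_Lw.1 hs
    exact ⟨φ, l, hl, (key φ l hl).symm⟩

theorem tm_DefA (hf : Tm ZFm f) (hg : Tm ZFm g) :
    Tm ZFm (fun M v => DefA (· ∈ f M v) (g M v)) := by
  refine Tm.at2 (F := fun _ x y => DefA (· ∈ x) y) ?_ hf hg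
  refine (Tm.image (f := fun _ v => ZFSet.prod CDA (Lw (v 1)))
    (g := fun _ u => (u 2).sep fun z =>
      ZFSet.pair z (ZFSet.pair (ZFSet.pair z (snd (u 0))) ∅) ∈ sA (u 2) (u 1) (fst (u 0)))
      ?_ ?_).congr ?_
  · exact Tm.prod tm_CDA (Tm.Lw (Tm.var 1))
  · exact Tm.sep (R := fun _ w => ZFSet.pair (w 0) (ZFSet.pair (ZFSet.pair (w 0) (snd (w 1))) ∅) ∈
      sA (w 3) (w 2) (fst (w 1)))
      (Dfb.mem (Tm.pair (Tm.var 0) (Tm.pair (Tm.pair (Tm.var 0) (Tm.snd (Tm.var 1))) Tm.empty))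
        (tm_sA (Tm.var 3) (Tm.var 2) (Tm.fst (Tm.var 1)))) (Tm.var 2)
  · intro M k v hv
    ext y
    rw [mem_imS, mem_DefA]
    constructor
    · rintro ⟨t, ht, rfl⟩
      obtain ⟨c, hc, s, hs, rfl⟩ := ZFSet.mem_prod.1 ht
      refine ⟨c, hc, s, hs, ?_⟩
      simp only [cons_zero, cons_succ, fst_pair, snd_pair]
    · rintro ⟨c, hc, s, hs, rfl⟩
      refine ⟨ZFSet.pair c s, ZFSet.mem_prod.2 ⟨c, hc, s, hs, rfl⟩, ?_⟩
      simp only [cons_zero, cons_succ, fst_pair, snd_pair]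

/-! ### the hierarchy -/

theorem mem_La {N : V → Prop} {α : Ordinal.{0}} {x : V} :
    x ∈ La N α ↔ ∃ β < α, x ∈ DefA N (La N β) := by
  rw [La]
  simp only [ZFSet.mem_iUnion, Subtype.exists, Set.mem_Iio, exists_prop]

theorem La_mono {N : V → Prop} {α β : Ordinal.{0}} (h : α ≤ β) : La N α ⊆ La N β := by
  intro x hx
  obtain ⟨γ, hγ, hx⟩ := mem_La.1 hx
  exact mem_La.2 ⟨γ, lt_of_lt_of_le hγ h, hx⟩

theorem mem_La_rank {N : V → Prop} {x y : V} : y ∈ La N x.rank ↔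
    ∃ z ∈ x, y ∈ La N z.rank ∪ DefA N (La N z.rank) := by
  rw [mem_La]
  constructor
  · rintro ⟨β, hβ, hy⟩
    obtain ⟨z, hz, h⟩ := ZFSet.lt_rank_iff.1 hβ
    refine ⟨z, hz, ZFSet.mem_union.2 ?_⟩
    rcases h.lt_or_eq with h | rfl
    · exact Or.inl (mem_La.2 ⟨β, h, hy⟩)
    · exact Or.inr hy
  · rintro ⟨z, hz, h⟩
    have h1 := ZFSet.rank_lt_of_mem hz
    rcases ZFSet.mem_union.1 h with h | h
    · exact mem_La.1 (La_mono h1.le h)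
    · exact ⟨_, h1, h⟩

theorem tm_La0 : Tm ZFm (fun _ v => La (· ∈ v 1) (v 0).rank) := by
  refine tm_recu (ext := fun _ v => v 0)
    (Φ := fun M u => (⋃₀ (imS (u 1) fun y => app (u 0) y ∪ DefA (· ∈ u 2) (app (u 0) y)) :
      ZFSet)) ZFSet.rank (Tm.var 0) ?_ ?_ ?_
  · exact Tm.iUn (g := fun _ u => app (u 1) (u 0) ∪ DefA (· ∈ u 3) (app (u 1) (u 0))) (Tm.var 1)
      (Tm.union (Tm.app (Tm.var 1) (Tm.var 0)) (tm_DefA (Tm.var 3)
        (Tm.app (Tm.var 1) (Tm.var 0))))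
  · intro M k v hv y hy
    exact ZFSet.rank_lt_of_mem hy
  · intro M k v hv
    simp only [cons_zero, cons_succ]
    ext y
    rw [mem_La_rank, ZFSet.mem_sUnion]
    constructor
    · rintro ⟨z, hz, hy⟩
      refine ⟨_, mem_imS.2 ⟨z, hz, rfl⟩, ?_⟩
      rw [app_resS hz]
      exact hy
    · rintro ⟨_, hw, hy⟩
      obtain ⟨z, hz, rfl⟩ := mem_imS.1 hw
      rw [app_resS hz] at hy
      exact ⟨z, hz, hy⟩

end H85DW

/-- the `C(aa)` hierarchy is uniformly definable -/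
theorem pf_DW : T_DW :=
  (H85DW.tm_La0.rn fun i => if i = 0 then 1 else 0).congr fun M k v hv => rfl

end CAA
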